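import Mathlib

namespace Pool.Agent.H.MP_214325_an

open Complex Real

theorem exp_sol {f : ℝ → ℂ} {k : ℂ} (h : ∀ x, HasDerivAt f (k * f x) x) (x : ℝ) :
    f x = cexp (k * x) * f 0 := by
  have h1 : ∀ x : ℝ, HasDerivAt (fun x : ℝ => f x * cexp (-(k * x))) 0 x := by
    intro x
    have h2 : HasDerivAt (fun x : ℝ => cexp (-(k * x))) (cexp (-(k * x)) * (-(k * 1))) x :=
      ((Complex.ofRealCLM.hasDerivAt.const_mul k).neg).cexp
    refine HasDerivAt.congr_deriv ((h x).mul h2) ?_
    ring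
  have h3 := is_const_of_deriv_eq_zero (fun x => (h1 x).differentiableAt)
    (fun x => (h1 x).deriv) x 0
  simp only [ofReal_zero, mul_zero, neg_zero, Complex.exp_zero, mul_one] at h3
  rw [← h3, mul_left_comm, ← Complex.exp_add]; simp

theorem chain {l : ℂ} {w0 w1 w2 w3 : ℝ → ℂ} (h0 : ∀ x, HasDerivAt w0 (w1 x) x)
    (h1 : ∀ x, HasDerivAt w1 (w2 x) x) (h2 : ∀ x, HasDerivAt w2 (w3 x) x)
    (h3 : ∀ x, HasDerivAt w3 (l * w0 x) x)
    (H : ∀ k a b c d : ℂ, k ^ 4 = l → a * w0 π + b * w1 π + c * w2 π + d * w3 π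
      = cexp (k * π) * (a * w0 0 + b * w1 0 + c * w2 0 + d * w3 0) →
      a * w0 0 + b * w1 0 + c * w2 0 + d * w3 0 = 0) (x : ℝ) : w0 x = 0 := by
  obtain ⟨k, hk⟩ := IsAlgClosed.exists_pow_nat_eq l (n := 4) (by norm_num)
  have key : ∀ κ a b c d : ℂ, κ ^ 4 = l →
      (∀ x, a * w1 x + b * w2 x + c * w3 x + d * (l * w0 x)
        = κ * (a * w0 x + b * w1 x + c * w2 x + d * w3 x)) →
      ∀ x, a * w0 x + b * w1 x + c * w2 x + d * w3 x = 0 := by
    intro κ a b c d hκ he x
    have hd : ∀ x, HasDerivAt (fun x => a * w0 x + b * w1 x + c * w2 x + d * w3 x)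
        (κ * (a * w0 x + b * w1 x + c * w2 x + d * w3 x)) x := fun x => by
      rw [← he]
      exact ((((h0 x).const_mul a).add ((h1 x).const_mul b)).add ((h2 x).const_mul c)).add
        ((h3 x).const_mul d)
    have := exp_sol hd x
    simp only [H κ a b c d hκ (exp_sol hd π), mul_zero] at this
    exact this
  have hI : I ^ 4 = 1 := I_pow_four
  have s3 := key (-I * k) (I * k ^ 3) (-k ^ 2) (-I * k) 1
    (by rw [← hk]; linear_combination k ^ 4 * hI) fun x => by
      rw [← hk]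
      linear_combination (k ^ 4 * w0 x - k ^ 2 * w2 x) * I_sq
  have s2 := key (I * k) (-k ^ 2) 0 1 0 (by rw [← hk]; linear_combination k ^ 4 * hI)
    fun x => by linear_combination s3 x
  have s1 := key (-k) (-k) 1 0 0 (by rw [← hk]; ring) fun x => by linear_combination s2 x
  have s0 := key k 1 0 0 0 hk fun x => by linear_combination s1 x
  simpa using s0 x

noncomputable def E (x : ℝ) : ℂ := cexp (2 * I * x)
noncomputable def th (x : ℝ) : ℂ := 1 + I - 4 * I * (E x + 2)⁻¹
noncomputable def FF (x : ℝ) : ℂ := -th x ^ 2 + 2 * th x - 2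
noncomputable def p2 (x : ℝ) : ℂ := 4 * FF x
noncomputable def p1 (x : ℝ) : ℂ := FF x * (12 - 8 * th x)
noncomputable def p0 (x : ℝ) : ℂ := FF x * (8 * th x ^ 2 - 20 * th x + 16)

theorem E_ne (x : ℝ) : E x + 2 ≠ 0 := by
  intro h
  have h1 : E x = -2 := by linear_combination h
  have h2 : ‖E x‖ = 1 := by
    rw [E, show 2 * I * (x : ℂ) = ((2 * x : ℝ) : ℂ) * I by push_cast; ring,
      Complex.norm_exp_ofReal_mul_I]
  rw [h1] at h2; norm_num at h2

theorem dE (x : ℝ) : HasDerivAt E (E x * (2 * I)) x := by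
  refine HasDerivAt.congr_deriv
    (Complex.ofRealCLM.hasDerivAt.const_mul (2 * I) (x := x)).cexp ?_
  simp [E]

theorem dth (x : ℝ) : HasDerivAt th (FF x) x := by
  have h := ((((dE x).add_const 2).inv (E_ne x)).const_mul (4 * I)).const_sub (1 + I)
  refine HasDerivAt.congr_deriv (h) ?_
  have := E_ne x
  simp only [FF, th]
  field_simp
  linear_combination ((E x) ^ 2 + 4 * E x + 4) * I_sq

theorem dFF (x : ℝ) : HasDerivAt FF ((2 - 2 * th x) * FF x) x := by
  have h := (((dth x).pow 2).neg.add ((dth x).const_mul 2)).sub_const 2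
  refine HasDerivAt.congr_deriv (h) ?_
  simp; ring

theorem th_smooth : ContDiff ℝ ⊤ th := by
  have h : ContDiff ℝ ⊤ E := (contDiff_const.mul Complex.ofRealCLM.contDiff).cexp
  exact contDiff_const.sub (contDiff_const.mul ((h.add contDiff_const).inv E_ne))

theorem E_per (x : ℝ) : E (x + π) = E x := by
  rw [E, E, ofReal_add, mul_add, Complex.exp_add,
    show 2 * I * (π : ℂ) = 2 * π * I by ring, Complex.exp_two_pi_mul_I, mul_one]

theorem th_per (x : ℝ) : th (x + π) = th x := by rw [th, th, E_per]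

theorem th_pi : th π = th 0 := by simpa using th_per 0

theorem FF0 : FF 0 ≠ 0 := by
  have : FF 0 = -8 / 9 := by
    simp only [FF, th, E, ofReal_zero, mul_zero, Complex.exp_zero]
    norm_num
    linear_combination (-1 / 9) * I_sq
  rw [this]; norm_num

structure Sol (l : ℂ) (y0 y1 y2 y3 : ℝ → ℂ) : Prop where
  h0 : ∀ x, HasDerivAt y0 (y1 x) x
  h1 : ∀ x, HasDerivAt y1 (y2 x) x
  h2 : ∀ x, HasDerivAt y2 (y3 x) x
  h3 : ∀ x, HasDerivAt y3 (l * y0 x - p2 x * y2 x - p1 x * y1 x - p0 x * y0 x) x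

theorem zero_of_deriv {f g : ℝ → ℂ} (h : ∀ x, HasDerivAt f (g x) x) (h0 : ∀ x, f x = 0) (x : ℝ) :
    g x = 0 := by
  have : f = fun _ => 0 := funext h0
  subst this
  exact (h x).unique (hasDerivAt_const x 0)

theorem Sol.main {l : ℂ} {y0 y1 y2 y3 : ℝ → ℂ} (S : Sol l y0 y1 y2 y3)
    (H : ∀ k a b c d : ℂ, k ^ 4 = l → a * y0 π + b * y1 π + c * y2 π + d * y3 π
      = cexp (k * π) * (a * y0 0 + b * y1 0 + c * y2 0 + d * y3 0) →
      a * y0 0 + b * y1 0 + c * y2 0 + d * y3 0 = 0) (x : ℝ) :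
    y0 x = 0 ∧ y1 x = 0 ∧ y2 x = 0 ∧ y3 x = 0 := by
  obtain ⟨h0, h1, h2, h3⟩ := S
  set w0 : ℝ → ℂ := fun x => y1 x - (2 - th x) * y0 x with hw0
  set w1 : ℝ → ℂ := fun x => y2 x - (2 - th x) * y1 x + FF x * y0 x with hw1
  set w2 : ℝ → ℂ := fun x => y3 x - (2 - th x) * y2 x + 2 * FF x * y1 x
    + (2 - 2 * th x) * FF x * y0 x with hw2
  set w3 : ℝ → ℂ := fun x => -(2 - th x) * y3 x - FF x * y2 x + (2 * th x - 6) * FF x * y1 x
    + (l - FF x * (2 * th x ^ 2 - 8 * th x + 8)) * y0 x with hw3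
  have d0 : ∀ x, HasDerivAt w0 (w1 x) x := fun x => by
    refine HasDerivAt.congr_deriv ((h1 x).sub (((dth x).const_sub 2).mul (h0 x))) ?_
    simp only [hw1]; ring
  have d1 : ∀ x, HasDerivAt w1 (w2 x) x := fun x => by
    refine HasDerivAt.congr_deriv (((h2 x).sub (((dth x).const_sub 2).mul (h1 x))).add ((dFF x).mul (h0 x))) ?_
    simp only [hw2]; ring
  have d2 : ∀ x, HasDerivAt w2 (w3 x) x := fun x => by
    refine HasDerivAt.congr_deriv ((((h3 x).sub (((dth x).const_sub 2).mul (h2 x))).add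
      (((dFF x).const_mul 2).mul (h1 x))).add
      (((((dth x).const_mul 2).const_sub 2).mul (dFF x)).mul (h0 x))) ?_
    simp only [hw3, p0, p1, p2, FF, Pi.mul_apply]; ring
  have d3 : ∀ x, HasDerivAt w3 (l * w0 x) x := fun x => by
    refine HasDerivAt.congr_deriv (((((((dth x).const_sub 2).neg.mul (h3 x)).sub ((dFF x).mul (h2 x))).add
      (((((dth x).const_mul 2).sub_const 6).mul (dFF x)).mul (h1 x))).add
      ((((dFF x).mul (((((dth x).pow 2).const_mul 2).sub ((dth x).const_mul 8)).add_const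
        8)).const_sub l).mul (h0 x)))) ?_
    simp only [hw0, p0, p1, p2, FF, Pi.mul_apply, Pi.sub_apply, Pi.neg_apply, Pi.pow_apply]
    ring
  have z0 := chain d0 d1 d2 d3 fun k a b c d hk he => by
    have := H k (-a * (2 - th 0) + b * FF 0 + c * ((2 - 2 * th 0) * FF 0)
        + d * (l - FF 0 * (2 * th 0 ^ 2 - 8 * th 0 + 8)))
      (a - b * (2 - th 0) + c * (2 * FF 0) + d * ((2 * th 0 - 6) * FF 0))
      (b - c * (2 - th 0) - d * FF 0) (c - d * (2 - th 0)) hk (by
        simp only [hw0, hw1, hw2, hw3, FF, th_pi] at he ⊢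
        linear_combination he)
    simp only [hw0, hw1, hw2, hw3]
    linear_combination this
  have z1 := zero_of_deriv d0 z0
  have z2 := zero_of_deriv d1 z1
  have z3 := zero_of_deriv d2 z2
  have hd : ∀ x, HasDerivAt (fun x => y0 x * (E x + 2)) ((1 + I) * (y0 x * (E x + 2))) x := by
    intro x
    refine HasDerivAt.congr_deriv ((h0 x).mul ((dE x).add_const 2)) ?_
    have e : y1 x = (2 - th x) * y0 x := by linear_combination z0 x
    have := E_ne x
    rw [e, th]; field_simp; ring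
  have y00 : y0 0 = 0 := by
    by_cases hl : l = -4
    · have e := exp_sol hd π
      have e2 : E π = E 0 := by simpa using E_per 0
      simp only [e2] at e
      have := H (1 + I) 1 0 0 0 (by
        rw [hl]; linear_combination (I ^ 2 + 4 * I + 5) * I_sq) (by
          simp only [one_mul, zero_mul, add_zero]
          exact mul_right_cancel₀ (E_ne 0) (by linear_combination e))
      simpa using this
    · have e : (l + 4) * y0 0 = 0 := by
        have a0 := z0 0
        have a1 := z1 0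
        have a2 := z2 0
        have a3 := z3 0
        simp only [hw0, hw1, hw2, hw3, FF] at a0 a1 a2 a3
        linear_combination a3 + (2 - th 0) * a2 + (2 - 2 * th 0) * a1 - (2 * th 0) * a0
      exact (mul_eq_zero.mp e).resolve_left fun h => hl (by linear_combination h)
  have q0 : ∀ x, y0 x = 0 := fun x => by
    have e := exp_sol hd x
    simp only [y00, zero_mul, mul_zero] at e
    exact (mul_eq_zero.mp e).resolve_right (E_ne x)
  have q1 := zero_of_deriv h0 q0
  have q2 := zero_of_deriv h1 q1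
  exact ⟨q0 x, q1 x, q2 x, zero_of_deriv h2 q2 x⟩

end Pool.Agent.H.MP_214325_an
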