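import Pool.Agent.H.MP_214325_an.A

namespace Pool.Agent.H.MP_214325_an

open Complex Real
open scoped ContDiff

noncomputable def De (w : ℂ) : ℂ := ∑' n : ℕ, 2 * ((π : ℂ) ^ 2 * w) ^ n / (2 * n).factorial

theorem De_diff : Differentiable ℂ De := by
  intro w
  have h := Complex.differentiableOn_tsum_of_summable_norm (U := Metric.ball 0 (‖w‖ + 1))
    (F := fun (n : ℕ) (w : ℂ) => 2 * ((π : ℂ) ^ 2 * w) ^ n / (2 * n).factorial)
    (u := fun n : ℕ => 2 * ((π ^ 2 * (‖w‖ + 1)) ^ n / n.factorial))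
    ((Real.summable_pow_div_factorial _).mul_left 2) (fun n => by fun_prop) Metric.isOpen_ball
    fun n z hz => by
      have h1 : ‖z‖ ≤ ‖w‖ + 1 := (mem_ball_zero_iff.mp hz).le
      have h2 : (n.factorial : ℝ) ≤ (2 * n).factorial := by
        exact_mod_cast Nat.factorial_le (by omega)
      simp only [norm_div, norm_mul, norm_pow, Complex.norm_natCast, Complex.norm_real,
        Real.norm_eq_abs, abs_of_pos Real.pi_pos, Complex.norm_ofNat, mul_div_assoc]
      gcongr
  exact h.differentiableAt (Metric.isOpen_ball.mem_nhds (by simp))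

theorem De_sq (k : ℂ) : De (k ^ 2) = cexp (k * π) + cexp (-(k * π)) := by
  have h := (Complex.hasSum_cosh (k * π)).mul_left 2
  rw [Complex.two_cosh] at h
  rw [← h.tsum_eq, De]
  refine tsum_congr fun n => ?_
  rw [pow_mul, mul_div_assoc]; congr 3; ring

theorem De_iff (l r : ℂ) (hr : r ≠ 0) :
    (((Polynomial.X ^ 2 - Polynomial.C l).roots.map fun w => r + r⁻¹ - De w).prod = 0) ↔
      ∃ k, k ^ 4 = l ∧ r = cexp (k * π) := by
  have hne : (Polynomial.X ^ 2 - Polynomial.C l : Polynomial ℂ) ≠ 0 :=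
    Polynomial.X_pow_sub_C_ne_zero (by norm_num) l
  simp only [Multiset.prod_eq_zero_iff, Multiset.mem_map, Polynomial.mem_roots hne,
    Polynomial.IsRoot, Polynomial.eval_sub, Polynomial.eval_pow, Polynomial.eval_X,
    Polynomial.eval_C]
  constructor
  · rintro ⟨w, hw, h⟩
    obtain ⟨k, rfl⟩ := IsAlgClosed.exists_pow_nat_eq w (n := 2) (by norm_num)
    rw [De_sq, Complex.exp_neg] at h
    have he := Complex.exp_ne_zero (k * π)
    have : (r - cexp (k * π)) * (r - (cexp (k * π))⁻¹) = 0 := by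
      field_simp at h ⊢
      linear_combination h
    rcases mul_eq_zero.mp this with h1 | h1
    · exact ⟨k, by linear_combination hw, by linear_combination h1⟩
    · exact ⟨-k, by linear_combination hw, by rw [neg_mul, Complex.exp_neg]; linear_combination h1⟩
  · rintro ⟨k, hk, rfl⟩
    exact ⟨k ^ 2, by linear_combination hk, by rw [De_sq, Complex.exp_neg, sub_self]⟩

theorem sol_of {l : ℂ} {u : ℝ → ℂ} (hu : ContDiff ℝ 4 u) (h : ∀ x, iteratedDeriv 4 u x
    + p2 x * iteratedDeriv 2 u x + p1 x * iteratedDeriv 1 u x + p0 x * u x = l * u x) :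
    Sol l u (iteratedDeriv 1 u) (iteratedDeriv 2 u) (iteratedDeriv 3 u) := by
  have d : ∀ k : ℕ, k < 4 → ∀ x, HasDerivAt (iteratedDeriv k u) (iteratedDeriv (k + 1) u x) x := by
    intro k hk x
    rw [iteratedDeriv_succ]
    exact (hu.differentiable_iteratedDeriv k (by exact_mod_cast hk) x).hasDerivAt
  refine ⟨fun x => by simpa using d 0 (by norm_num) x, d 1 (by norm_num), d 2 (by norm_num),
    fun x => (d 3 (by norm_num) x).congr_deriv (by linear_combination h x)⟩

theorem Sol.comb {l : ℂ} {a0 a1 a2 a3 b0 b1 b2 b3 : ℝ → ℂ} (A : Sol l a0 a1 a2 a3)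
    (B : Sol l b0 b1 b2 b3) (c : ℂ) : Sol l (fun x => a0 x + c * b0 x) (fun x => a1 x + c * b1 x)
      (fun x => a2 x + c * b2 x) (fun x => a3 x + c * b3 x) :=
  ⟨fun x => (A.h0 x).add ((B.h0 x).const_mul c), fun x => (A.h1 x).add ((B.h1 x).const_mul c),
    fun x => (A.h2 x).add ((B.h2 x).const_mul c),
    fun x => ((A.h3 x).add ((B.h3 x).const_mul c)).congr_deriv (by ring)⟩

theorem Sol.zero (l : ℂ) : Sol l (fun _ => 0) (fun _ => 0) (fun _ => 0) (fun _ => 0) :=
  ⟨fun x => hasDerivAt_const _ _, fun x => hasDerivAt_const _ _, fun x => hasDerivAt_const _ _,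
    fun x => (hasDerivAt_const _ _).congr_deriv (by ring)⟩

theorem sol_exp (k : ℂ) : Sol (k ^ 4) (fun x => (k - th x) * cexp (k * x))
    (fun x => (k * (k - th x) - FF x) * cexp (k * x))
    (fun x => (k ^ 2 * (k - th x) - 2 * k * FF x - (2 - 2 * th x) * FF x) * cexp (k * x))
    (fun x => (k ^ 3 * (k - th x) - 3 * k ^ 2 * FF x - 3 * k * ((2 - 2 * th x) * FF x)
      - (6 * th x ^ 2 - 12 * th x + 8) * FF x) * cexp (k * x)) := by
  have e : ∀ x : ℝ, HasDerivAt (fun x : ℝ => cexp (k * x)) (cexp (k * x) * k) x := fun x =>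
    HasDerivAt.congr_deriv (Complex.ofRealCLM.hasDerivAt.const_mul k (x := x)).cexp (by simp)
  have t := fun x => (dth x).const_sub k
  have g := fun x => (((dth x).const_mul 2).const_sub 2).mul (dFF x)
  refine ⟨fun x => ((t x).mul (e x)).congr_deriv (by ring),
    fun x => ((((t x).const_mul k).sub (dFF x)).mul (e x)).congr_deriv ?_,
    fun x => (((((t x).const_mul (k ^ 2)).sub ((dFF x).const_mul (2 * k))).sub (g x)).mul
      (e x)).congr_deriv ?_,
    fun x => ((((((t x).const_mul (k ^ 3)).sub ((dFF x).const_mul (3 * k ^ 2))).sub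
      ((g x).const_mul (3 * k))).sub ((((((dth x).pow 2).const_mul 6).sub
        ((dth x).const_mul 12)).add_const 8).mul (dFF x))).mul (e x)).congr_deriv ?_⟩
  · simp only [Pi.sub_apply]; ring
  · simp only [Pi.sub_apply, Pi.mul_apply, FF]; ring
  · simp only [Pi.sub_apply, Pi.mul_apply, Pi.pow_apply, FF, p0, p1, p2]; ring

theorem det_iff {l : ℂ} {u : Fin 4 → ℝ → ℂ} (hu : ∀ j, ContDiff ℝ 4 (u j))
    (hi : ∀ j k : Fin 4, iteratedDeriv k (u j) 0 = if j = k then 1 else 0)
    (h : ∀ j x, iteratedDeriv 4 (u j) x + p2 x * iteratedDeriv 2 (u j) x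
      + p1 x * iteratedDeriv 1 (u j) x + p0 x * u j x = l * u j x) (r : ℂ) :
    (r • (1 : Matrix (Fin 4) (Fin 4) ℂ) - Matrix.of fun k j : Fin 4 =>
      iteratedDeriv k (u j) π).det = 0 ↔ ∃ k, k ^ 4 = l ∧ r = cexp (k * π) := by
  have S := fun j => sol_of (hu j) (h j)
  have C := fun c : Fin 4 → ℂ =>
    ((((Sol.zero l).comb (S 0) (c 0)).comb (S 1) (c 1)).comb (S 2) (c 2)).comb (S 3) (c 3)
  have i0 : ∀ j, u j 0 = if j = 0 then 1 else 0 := fun j => by simpa using hi j 0
  have i1 : ∀ j, iteratedDeriv 1 (u j) 0 = if j = 1 then 1 else 0 := fun j => hi j 1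
  have i2 : ∀ j, iteratedDeriv 2 (u j) 0 = if j = 2 then 1 else 0 := fun j => hi j 2
  have i3 : ∀ j, iteratedDeriv 3 (u j) 0 = if j = 3 then 1 else 0 := fun j => hi j 3
  have mv : ∀ c : Fin 4 → ℂ, (r • (1 : Matrix (Fin 4) (Fin 4) ℂ) - Matrix.of fun k j : Fin 4 =>
      iteratedDeriv k (u j) π).mulVec c = 0 ↔
      (c 0 * u 0 π + c 1 * u 1 π + c 2 * u 2 π + c 3 * u 3 π = r * c 0 ∧
      c 0 * iteratedDeriv 1 (u 0) π + c 1 * iteratedDeriv 1 (u 1) π + c 2 * iteratedDeriv 1 (u 2) π
        + c 3 * iteratedDeriv 1 (u 3) π = r * c 1 ∧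
      c 0 * iteratedDeriv 2 (u 0) π + c 1 * iteratedDeriv 2 (u 1) π + c 2 * iteratedDeriv 2 (u 2) π
        + c 3 * iteratedDeriv 2 (u 3) π = r * c 2 ∧
      c 0 * iteratedDeriv 3 (u 0) π + c 1 * iteratedDeriv 3 (u 1) π + c 2 * iteratedDeriv 3 (u 2) π
        + c 3 * iteratedDeriv 3 (u 3) π = r * c 3) := by
    intro c
    rw [Matrix.sub_mulVec, Matrix.smul_mulVec, Matrix.one_mulVec, sub_eq_zero, eq_comm,
      funext_iff, Fin.forall_fin_succ, Fin.forall_fin_succ, Fin.forall_fin_succ,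
      Fin.forall_fin_one]
    simp [Matrix.mulVec, dotProduct, Fin.sum_univ_four, mul_comm]
  rw [← Matrix.exists_mulVec_eq_zero_iff]
  constructor
  · rintro ⟨c, hc, he⟩
    obtain ⟨e0, e1, e2, e3⟩ := (mv c).mp he
    by_contra! hn
    have := (C c).main (fun k a b c' d hk he => by
      simp only [i0, i1, i2, i3, zero_add, e0, e1, e2, e3] at he ⊢
      simp at he ⊢
      have h2 : (r - cexp (k * π)) * (a * c 0 + b * c 1 + c' * c 2 + d * c 3) = 0 := by
        linear_combination he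
      exact (mul_eq_zero.mp h2).resolve_left (sub_ne_zero.mpr (hn k hk))) 0
    simp only [i0, i1, i2, i3] at this
    simp at this
    exact hc (funext fun i => by fin_cases i <;> simp [this])
  · rintro ⟨k, rfl, rfl⟩
    set c : Fin 4 → ℂ := ![k - th 0, k * (k - th 0) - FF 0,
      k ^ 2 * (k - th 0) - 2 * k * FF 0 - (2 - 2 * th 0) * FF 0,
      k ^ 3 * (k - th 0) - 3 * k ^ 2 * FF 0 - 3 * k * ((2 - 2 * th 0) * FF 0)
        - (6 * th 0 ^ 2 - 12 * th 0 + 8) * FF 0] with hc
    refine ⟨c, fun h0 => FF0 ?_, (mv c).mpr ?_⟩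
    · have a0 : k - th 0 = 0 := congrFun h0 0
      have a1 : k * (k - th 0) - FF 0 = 0 := congrFun h0 1
      linear_combination k * a0 - a1
    · obtain ⟨e0, e1, e2, e3⟩ := ((C c).comb (sol_exp k) (-1)).main (fun k' a b c' d _ _ => by
        simp only [i0, i1, i2, i3]
        simp [hc]) π
      simp only [FF, th_pi] at e0 e1 e2 e3
      refine ⟨?_, ?_, ?_, ?_⟩
      · rw [show c 0 = k - th 0 from rfl] at e0 ⊢; linear_combination e0
      · nth_rewrite 2 [show c 1 = k * (k - th 0) - FF 0 from rfl]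
        simp only [FF]; linear_combination e1
      · nth_rewrite 2 [show c 2 = k ^ 2 * (k - th 0) - 2 * k * FF 0 - (2 - 2 * th 0) * FF 0
          from rfl]
        simp only [FF]; linear_combination e2
      · nth_rewrite 2 [show c 3 = k ^ 3 * (k - th 0) - 3 * k ^ 2 * FF 0
          - 3 * k * ((2 - 2 * th 0) * FF 0) - (6 * th 0 ^ 2 - 12 * th 0 + 8) * FF 0 from rfl]
        simp only [FF]; linear_combination e3

theorem not_sq (q : ℝ → ℂ) (hq : ContDiff ℝ 2 q) (H : (ℝ → ℂ) → ℝ → ℂ)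
    (hH : ∀ f, H f = fun x => deriv (deriv f) x + q x * f x)
    (h : ∀ f : ℝ → ℂ, ContDiff ℝ ∞ f → ∀ x, iteratedDeriv 4 f x + p2 x * iteratedDeriv 2 f x
      + p1 x * iteratedDeriv 1 f x + p0 x * f x = H (H f) x) : False := by
  have q0 : ∀ x, HasDerivAt q (deriv q x) x := fun x =>
    (hq.differentiable (by norm_num) x).hasDerivAt
  have q1 : ∀ x, HasDerivAt (deriv q) (deriv (deriv q) x) x := fun x =>
    ((contDiff_succ_iff_deriv.mp (show ContDiff ℝ (1 + 1) q from hq)).2.2.differentiable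
      (by norm_num) x).hasDerivAt
  have key : ∀ (k : ℂ) (x : ℝ), k ^ 4 + p2 x * k ^ 2 + p1 x * k + p0 x
      = deriv (deriv q) x + 2 * k * deriv q x + (k ^ 2 + q x) ^ 2 := by
    intro k x
    have e : ∀ x : ℝ, HasDerivAt (fun x : ℝ => cexp (k * x)) (k * cexp (k * x)) x := fun x =>
      HasDerivAt.congr_deriv (Complex.ofRealCLM.hasDerivAt.const_mul k (x := x)).cexp
        (by simp [mul_comm])
    have it : ∀ n : ℕ, iteratedDeriv n (fun x : ℝ => cexp (k * x))
        = fun x : ℝ => k ^ n * cexp (k * x) := by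
      intro n
      induction n with
      | zero => simp
      | succ n ih =>
        rw [iteratedDeriv_succ, ih]
        funext x
        rw [((e x).const_mul (k ^ n)).deriv]; ring
    have h1 := h (fun x : ℝ => cexp (k * x))
      ((contDiff_const.mul Complex.ofRealCLM.contDiff).cexp) x
    have h2 : H (fun x : ℝ => cexp (k * x)) = fun x => (k ^ 2 + q x) * cexp (k * x) := by
      have := it 2
      rw [iteratedDeriv_succ, iteratedDeriv_one] at this
      rw [hH, this]; funext x; ring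
    have h3 : deriv (fun x => (k ^ 2 + q x) * cexp (k * x))
        = fun x => (deriv q x + k * (k ^ 2 + q x)) * cexp (k * x) := funext fun x =>
      ((((q0 x).const_add (k ^ 2)).mul (e x)).congr_deriv (by ring)).deriv
    have h4 := (((q1 x).add (((q0 x).const_add (k ^ 2)).const_mul k)).mul (e x)).deriv
    rw [h2, hH, it, it, it, h3] at h1
    simp only at h1
    erw [h4] at h1
    simp only [Pi.add_apply] at h1
    exact mul_right_cancel₀ (Complex.exp_ne_zero (k * x)) (by linear_combination h1)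
  have a2 : q = fun x => 2 * FF x := funext fun x => by
    have := key 0 x; have := key 1 x; have := key (-1) x
    simp only [p2] at *
    grind
  have a1 : p1 0 = 2 * deriv q 0 := by
    have := key 1 0; have := key (-1) 0
    grind
  have a3 : deriv q 0 = 2 * ((2 - 2 * th 0) * FF 0) := by
    rw [a2]; exact ((dFF 0).const_mul 2).deriv
  apply FF0
  rw [a3, p1] at a1
  linear_combination (1 / 4) * a1

end Pool.Agent.H.MP_214325_an
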